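import Mathlib
import Pool.Agent.H28.Hardy

namespace Pool.Agent.Results.MP_4b0b35_an.Quasinilpotent

open Filter Topology Metric Set Pool.Agent.H28.L2Ops Pool.Agent.H28.Hardy

section defs
variable {H : Type} [NormedAddCommGroup H] [InnerProductSpace ℂ H]

/-- The value at `z` of the function whose Taylor coefficients are the coordinates of `f`. -/
noncomputable def val (b : HilbertBasis ℕ ℂ H) (f : H) (z : ℂ) : ℂ :=
  ∑' n, inner ℂ (b n) f * z ^ n

/-- `T` is the weighted composition operator with analytic symbols `ψ` and `φ`. -/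
def IsWCO (b : HilbertBasis ℕ ℂ H) (ψ φ : ℂ → ℂ) (T : H → H) : Prop :=
  DifferentiableOn ℂ ψ (ball 0 1) ∧ DifferentiableOn ℂ φ (ball 0 1) ∧
    MapsTo φ (ball 0 1) (ball 0 1) ∧
      ∀ f, ∀ z ∈ ball (0 : ℂ) 1, val b (T f) z = ψ z * val b f (φ z)

/-- The spectrum of `T`. -/
def sp (T : H →L[ℂ] H) : Set ℂ := spectrum ℂ T

end defs

theorem aux (ψ φ : ℂ → ℂ) (hψ : DifferentiableOn ℂ ψ (ball 0 1))
    (hφ : DifferentiableOn ℂ φ (ball 0 1)) (hm : MapsTo φ (ball 0 1) (ball 0 1))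
    (hf : ∀ p ∈ ball (0 : ℂ) 1, φ p ≠ p) (T : L2 ℂ →L[ℂ] L2 ℂ)
    (hT : ∀ a, ∀ z ∈ ball (0 : ℂ) 1, ev (T a) z = ψ z * ev a (φ z))
    (hc : IsCompactOperator T) : spectrum ℂ T = {0} := by
  have hm' : ∀ w, ‖w‖ < 1 → ‖φ w‖ < 1 := fun w hw => by simpa using hm (mem_ball_zero_iff.2 hw)
  have key : ∀ ε > 0, ∀ᶠ z in L, ‖ψ z‖ * ‖K (φ z)‖ ≤ ε * ‖K z‖ := fun ε hε => by
    filter_upwards [L_lt, unif T hc ε hε] with z hz h
    have := h _ (ev_unit (hm' z hz)).1
    rwa [hT _ z (mem_ball_zero_iff.2 hz), (ev_unit (hm' z hz)).2, norm_mul, Complex.norm_real,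
      norm_norm] at this
  refine eq_singleton_iff_unique_mem.2 ⟨?_, fun μ hμ => ?_⟩
  · rw [spectrum.zero_mem_iff]
    rintro ⟨u, rfl⟩
    have h1 : IsCompactOperator (1 : L2 ℂ →L[ℂ] L2 ℂ) := by
      rw [← u.mul_inv]; exact hc.comp_clm _
    obtain ⟨r, hr, h⟩ := L_iff.1 (unif 1 h1 (1 / 2) one_half_pos)
    obtain ⟨t, h2, h3⟩ := exists_between (max_lt hr one_pos)
    have e : ‖(t : ℂ)‖ = t := by simpa using ((le_max_right _ _).trans h2.le)
    have h4 : ‖(t : ℂ)‖ < 1 := by rwa [e]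
    have := h t (by rw [e]; exact (le_max_left _ _).trans_lt h2) h4 _ (ev_unit h4).1
    rw [ContinuousLinearMap.one_apply, (ev_unit h4).2, Complex.norm_real, norm_norm] at this
    linarith [K_pos h4]
  by_contra h0
  obtain ⟨a, ha, ha0⟩ := ((hc.hasEigenvalue_iff_mem_spectrum h0).2 hμ).exists_hasEigenvector
  have ha : T a = μ • a := Module.End.mem_eigenspace_iff.1 ha
  have hμ0 : 0 < ‖μ‖ := norm_pos_iff.2 h0
  have eig : ∀ z, ‖z‖ < 1 → ‖μ‖ * ‖ev a z‖ = ‖ψ z‖ * ‖ev a (φ z)‖ := fun z hz => by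
    rw [← norm_mul, ← norm_mul, ← hT a z (mem_ball_zero_iff.2 hz), ha, ev_eq hz, ev_eq hz,
      inner_smul_right]
  obtain ⟨z, hz, hz0⟩ : ∃ z, ‖z‖ < 1 ∧ ev a z ≠ 0 := by
    by_contra h
    push Not at h
    exact ha0 (ev_inj a h)
  rcases escape hφ hm (fun p hp => hf p (mem_ball_zero_iff.2 hp)) with ⟨b, hb, h⟩ | h
  · have hb' := hm' b hb
    have q1 : 0 < 1 - ‖b‖ := by linarith
    have q2 : 0 < 1 - ‖φ b‖ ^ 2 := by nlinarith [norm_nonneg (φ b)]
    have cmp : ∀ w, ‖w‖ < 1 → ‖K w‖ ≤ 2 / ((1 - ‖b‖) * (1 - ‖φ b‖ ^ 2)) * ‖K (φ w)‖ := by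
      intro w hw
      have a1 := mo_id hb hw
      have a2 := mo_id hb' (hm' w hw)
      rw [h w hw] at a2
      have a3 := pow_le_pow_left₀ q1.le (den_ge b w hw) 2
      have a4 : ‖1 - (starRingEnd ℂ) (φ b) * φ w‖ ^ 2 ≤ 2 ^ 2 := by
        refine pow_le_pow_left₀ (norm_nonneg _) ((norm_sub_le _ _).trans ?_) 2
        rw [norm_mul, Complex.norm_conj, norm_one]
        nlinarith [norm_nonneg (φ b), hm' w hw, norm_nonneg (φ w)]
      have a5 : 0 ≤ 1 - ‖mo b w‖ ^ 2 := by nlinarith [mo_lt hb hw, norm_nonneg (mo b w)]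
      have a6 : 0 < 1 - ‖w‖ ^ 2 := by nlinarith [norm_nonneg w]
      have a7 : 0 < 1 - ‖φ w‖ ^ 2 := by nlinarith [norm_nonneg (φ w), hm' w hw]
      have a8 : (1 - ‖mo b w‖ ^ 2) * (1 - ‖b‖) ^ 2 ≤ 1 - ‖w‖ ^ 2 := by
        nlinarith [mul_le_mul_of_nonneg_left a3 a5, mul_nonneg (sq_nonneg ‖b‖) a6.le]
      have a9 : (1 - ‖φ b‖ ^ 2) * (1 - ‖φ w‖ ^ 2) * (1 - ‖b‖) ^ 2 ≤ 4 * (1 - ‖w‖ ^ 2) := by
        nlinarith [mul_le_mul_of_nonneg_right (mul_le_mul_of_nonneg_left a4 a5) (sq_nonneg (1 - ‖b‖))]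
      rw [div_mul_eq_mul_div, le_div_iff₀ (by positivity)]
      refine le_of_sq_le_sq ?_ (by positivity)
      have k1 : ‖K w‖ ^ 2 = 1 / (1 - ‖w‖ ^ 2) := eq_div_of_mul_eq a6.ne' (K_sq hw)
      have k2 : ‖K (φ w)‖ ^ 2 = 1 / (1 - ‖φ w‖ ^ 2) := eq_div_of_mul_eq a7.ne' (K_sq (hm' w hw))
      rw [mul_pow, mul_pow, mul_pow, k1, k2, div_mul_eq_mul_div, mul_one_div, one_mul,
        div_le_div_iff₀ a6 a7]
      have b1 : 0 ≤ (1 - ‖φ b‖ ^ 2) * (1 - ‖φ w‖ ^ 2) * (1 - ‖b‖) ^ 2 := by positivity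
      nlinarith [mul_nonneg b1 (sq_nonneg ‖φ b‖)]
    set C := 2 / ((1 - ‖b‖) * (1 - ‖φ b‖ ^ 2))
    have hC : 0 < C := by positivity
    have : ‖ψ z‖ ≤ 0 := by
      refine le_of_forall_pos_le_add fun ε hε => ?_
      obtain ⟨r, hr, hk⟩ := L_iff.1 (key (ε / C) (by positivity))
      obtain ⟨t, h2, h3⟩ := exists_between (max_lt hr hz)
      have t0 : 0 < t := (norm_nonneg z).trans_lt ((le_max_right _ _).trans_lt h2)
      rw [zero_add]
      refine Complex.norm_le_of_forall_mem_frontier_norm_le (U := ball 0 t) isBounded_ball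
        (DifferentiableOn.diffContOnCl (hψ.mono ?_)) (fun w hw => ?_)
        (subset_closure (mem_ball_zero_iff.2 ((le_max_right _ _).trans_lt h2)))
      · exact closure_ball_subset_closedBall.trans (closedBall_subset_ball h3)
      · rw [frontier_ball _ t0.ne', mem_sphere_zero_iff_norm] at hw
        have w1 : ‖w‖ < 1 := by rwa [hw]
        have w2 := (hk w (by rw [hw]; exact (le_max_left _ _).trans_lt h2) w1).trans
          (mul_le_mul_of_nonneg_left (cmp w w1) (by positivity))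
        rw [← mul_assoc, div_mul_cancel₀ _ hC.ne'] at w2
        exact le_of_mul_le_mul_right w2 (K_pos (hm' w w1))
    have h2 := eig z hz
    nlinarith [mul_pos hμ0 (norm_pos_iff.2 hz0), norm_nonneg (ev a (φ z))]
  · have hn : ∀ n, ‖φ^[n] z‖ < 1 := fun n => by
      simpa using hm.iterate n (mem_ball_zero_iff.2 hz)
    let u : ℕ → ℝ := fun n => ‖ev a (φ^[n] z)‖ / ‖K (φ^[n] z)‖
    have upos : ∀ n, 0 < ‖ev a (φ^[n] z)‖ := fun n => by
      induction n with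
      | zero => exact norm_pos_iff.2 hz0
      | succ n ih =>
        rw [Function.iterate_succ_apply']
        refine norm_pos_iff.2 fun h => ?_
        have := eig _ (hn n)
        rw [h, norm_zero, mul_zero] at this
        exact (mul_pos hμ0 ih).ne' this
    obtain ⟨N, hN⟩ := eventually_atTop.1 ((h z hz).eventually (key (‖μ‖ / 2) (by positivity)))
    have grow : ∀ k, 2 ^ k * u N ≤ u (N + k) := fun k => by
      induction k with
      | zero => simp
      | succ k ih =>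
        refine le_trans (by rw [pow_succ]; linarith : _ ≤ 2 * u (N + k)) ?_
        have h1 := hN (N + k) (by omega)
        have h2 := eig _ (hn (N + k))
        simp only [u, ← add_assoc, Function.iterate_succ_apply']
        rw [← mul_div_assoc, div_le_div_iff₀ (K_pos (hn _)) (K_pos (hm' _ (hn _)))]
        refine le_of_mul_le_mul_left ?_ hμ0
        nlinarith [mul_le_mul_of_nonneg_right h1 (norm_nonneg (ev a (φ (φ^[N + k] z)))),
          congrArg (· * ‖K (φ (φ^[N + k] z))‖) h2]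
    have u0 : 0 < u N := div_pos (upos N) (K_pos (hn N))
    obtain ⟨k, hk⟩ := pow_unbounded_of_one_lt (‖a‖ / u N) one_lt_two
    rw [div_lt_iff₀ u0] at hk
    have : u (N + k) ≤ ‖a‖ := (div_le_iff₀' (K_pos (hn _))).2 (ev_le (hn _) a)
    linarith [grow k]

theorem result {H : Type} [NormedAddCommGroup H] [InnerProductSpace ℂ H]
    (b : HilbertBasis ℕ ℂ H) (ψ φ : ℂ → ℂ) (T : H →L[ℂ] H) (hW : IsWCO b ψ φ T)
    (hc : IsCompactOperator T) (hf : ∀ p ∈ ball (0 : ℂ) 1, φ p ≠ p) : sp T = {0} := by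
  obtain ⟨hψ, hφ, hm, hT⟩ := hW
  have e : ∀ f z, val b f z = ev (b.repr f) z := fun f z => by
    simp [val, ev, b.repr_apply_apply]
  let E := b.repr.toContinuousLinearEquiv
  rw [sp, ← AlgEquiv.spectrum_eq E.conjContinuousAlgEquiv.toAlgEquiv T]
  refine aux ψ φ hψ hφ hm hf _ (fun a z hz => ?_)
    ((hc.comp_clm (E.symm : L2 ℂ →L[ℂ] H)).clm_comp (E : H →L[ℂ] L2 ℂ))
  have := hT (b.repr.symm a) z hz
  rw [e, e, LinearIsometryEquiv.apply_symm_apply] at this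
  exact this

end Pool.Agent.Results.MP_4b0b35_an.Quasinilpotent
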